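import Mathlib

/-!
# An arithmetic progression of odd numbers that are not gaps from a power of two to the next odd semiprime

A list of `31` primes `p`, with residue classes `x mod m`, where `2 ^ m ≡ 1 mod p`, such that every integer
lies in at least two of the classes (a double covering). If `k ≡ - 2 ^ x mod p` for all of them, then
`2 ^ n + k` has two different prime factors of the list for every `n`, and it is larger than the
product of any two of them, so it is never a semiprime.
-/

set_option autoImplicit false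

namespace Pool.Agent.Results.MP_c49196_nt.MissedGaps

/-- A semiprime is a product of two primes, which may be equal. -/
def IsSemiprime (s : ℕ) : Prop := ∃ p q : ℕ, p.Prime ∧ q.Prime ∧ s = p * q

/-- `a n` is the distance from `2 ^ n` to the least odd semiprime larger than `2 ^ n`. -/
noncomputable def a (n : ℕ) : ℕ := sInf {s : ℕ | 2 ^ n < s ∧ Odd s ∧ IsSemiprime s} - 2 ^ n

/-- Sanity check: the minimum in the definition of `a n` is attained. -/
theorem sInf_mem (n : ℕ) :
    sInf {s : ℕ | 2 ^ n < s ∧ Odd s ∧ IsSemiprime s} ∈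
      {s : ℕ | 2 ^ n < s ∧ Odd s ∧ IsSemiprime s} := by
  apply Nat.sInf_mem
  obtain ⟨p, hp1, hp2⟩ := Nat.exists_infinite_primes (2 ^ n + 3)
  refine ⟨3 * p, by omega, ?_, 3, p, Nat.prime_three, hp2, rfl⟩
  have h1 : Odd p := hp2.odd_of_ne_two (by have := Nat.pos_of_ne_zero (pow_ne_zero n (by norm_num : (2:ℕ) ≠ 0)); omega)
  exact Odd.mul (by decide) h1

/-- The double covering: triples (modulus `m`, residue `x`, prime `p`). -/
def cov : List (ℕ × ℕ × ℕ) :=
  [(2, 0, 3), (3, 0, 7), (4, 1, 5), (5, 1, 31), (8, 3, 17), (9, 5, 73), (10, 3, 11), (12, 4, 13),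
    (15, 10, 151), (16, 7, 257), (18, 2, 19), (20, 19, 41), (24, 22, 241), (30, 7, 331), (36, 8, 37),
    (36, 26, 109), (40, 15, 61681), (45, 2, 631), (45, 17, 23311), (48, 31, 97), (48, 47, 673),
    (60, 49, 61), (60, 5, 1321), (72, 10, 433), (72, 58, 38737), (80, 47, 4278255361),
    (90, 89, 18837001), (120, 35, 4562284561), (144, 34, 577), (144, 106, 487824887233), (180, 29, 181)]

/-- The first term of the progression. -/
def k₀ : ℕ := 3845363396885914185059795561945627462816203621354340024311902294483760926058629085188060544368833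

/-- The difference of the progression. -/
def M : ℕ := 16848598051865025403748458054953140236790739249936713364209873796125194055627938500270010650593070

theorem cov_facts : ∀ c ∈ cov, c.1 ∣ 720 ∧ 0 < c.1 ∧ 1 < c.2.2 ∧ 2 ^ c.1 % c.2.2 = 1 ∧
    c.2.2 ∣ 2 ^ c.2.1 + k₀ ∧ c.2.2 ∣ M := by
  decide

theorem cov_coprime : cov.Pairwise (fun c d => Nat.Coprime c.2.2 d.2.2 ∧ c.2.2 * d.2.2 < k₀) := by
  decide

/-- every residue modulo 720 is covered at least twice -/
theorem double_cover : ∀ r < 720, 2 ≤ (cov.filter (fun c => r % c.1 = c.2.1)).length := by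
  decide +kernel

theorem dvd_of_mem {c : ℕ × ℕ × ℕ} (hc : c ∈ cov) {n : ℕ} (hn : n % c.1 = c.2.1) (t : ℕ) :
    c.2.2 ∣ 2 ^ n + (k₀ + M * t) := by
  obtain ⟨-, -, hp1, h2, h3, h4⟩ := cov_facts c hc
  have h5 : (2 : ℕ) ^ n ≡ 2 ^ c.2.1 [MOD c.2.2] := by
    have e : n = c.1 * (n / c.1) + c.2.1 := by rw [← hn]; exact (Nat.div_add_mod n c.1).symm
    have h6 : (2 : ℕ) ^ c.1 ≡ 1 [MOD c.2.2] := by
      unfold Nat.ModEq
      rw [h2, Nat.mod_eq_of_lt hp1]
    calc (2 : ℕ) ^ n = (2 ^ c.1) ^ (n / c.1) * 2 ^ c.2.1 := by rw [← pow_mul, ← pow_add, ← e]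
      _ ≡ 1 ^ (n / c.1) * 2 ^ c.2.1 [MOD c.2.2] := (h6.pow _).mul_right _
      _ = 2 ^ c.2.1 := by rw [one_pow, one_mul]
  have h7 : 2 ^ n + k₀ ≡ 0 [MOD c.2.2] := ((h5.add_right k₀).trans (Nat.modEq_zero_iff_dvd.2 h3))
  have h8 : c.2.2 ∣ 2 ^ n + k₀ := Nat.modEq_zero_iff_dvd.1 h7
  rw [← add_assoc]
  exact dvd_add h8 (h4.mul_right t)

theorem not_semiprime (n t : ℕ) : ¬ IsSemiprime (2 ^ n + (k₀ + M * t)) := by
  rintro ⟨p, q, hp, hq, h⟩
  have hr : n % 720 < 720 := Nat.mod_lt _ (by norm_num)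
  have h1 := double_cover (n % 720) hr
  set l := cov.filter (fun c => n % 720 % c.1 = c.2.1) with hl
  have hsub : l.Sublist cov := List.filter_sublist
  have hpw : l.Pairwise (fun c d => Nat.Coprime c.2.2 d.2.2 ∧ c.2.2 * d.2.2 < k₀) :=
    cov_coprime.sublist hsub
  have hmem : ∀ c ∈ l, c ∈ cov ∧ n % c.1 = c.2.1 := by
    intro c hc
    rw [hl, List.mem_filter] at hc
    refine ⟨hc.1, ?_⟩
    have h2 : n % 720 % c.1 = c.2.1 := by simpa using hc.2
    rw [Nat.mod_mod_of_dvd _ (cov_facts c hc.1).1] at h2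
    exact h2
  match hm : l, h1, hpw, hmem with
  | [], h1, _, _ => simp at h1
  | [_], h1, _, _ => simp at h1
  | c :: d :: l', _, hpw, hmem =>
    have hcd := (List.pairwise_cons.1 hpw).1 d (by simp)
    obtain ⟨hc1, hc2⟩ := hmem c (by simp)
    obtain ⟨hd1, hd2⟩ := hmem d (by simp)
    have hc3 := dvd_of_mem hc1 hc2 t
    have hd3 := dvd_of_mem hd1 hd2 t
    have hp1 := (cov_facts c hc1).2.2.1
    have hp2 := (cov_facts d hd1).2.2.1
    obtain ⟨e, he⟩ := Nat.Coprime.mul_dvd_of_dvd_of_dvd hcd.1 hc3 hd3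
    have he1 : e ≠ 0 := by
      rintro rfl
      rw [mul_zero] at he
      have h9 : 0 < 2 ^ n + (k₀ + M * t) := Nat.add_pos_left (by positivity) _
      exact h9.ne' he
    have he2 : e ≠ 1 := by
      rintro rfl
      rw [mul_one] at he
      have h9 : k₀ ≤ c.2.2 * d.2.2 := by
        rw [← he]
        exact le_trans (Nat.le_add_right _ _) (Nat.le_add_left _ _)
      exact absurd hcd.2 (not_lt.2 h9)
    have ho : ∀ x : ℕ, 1 < x → 1 ≤ ArithmeticFunction.cardFactors x := by
      intro x hx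
      by_contra hlt
      have h0 : ArithmeticFunction.cardFactors x = 0 := by omega
      rw [ArithmeticFunction.cardFactors_eq_zero_iff_eq_zero_or_one] at h0
      omega
    have h3 : ArithmeticFunction.cardFactors (2 ^ n + (k₀ + M * t)) = 2 := by
      rw [h, ArithmeticFunction.cardFactors_mul hp.ne_zero hq.ne_zero,
        ArithmeticFunction.cardFactors_apply_prime hp, ArithmeticFunction.cardFactors_apply_prime hq]
    rw [he, ArithmeticFunction.cardFactors_mul (by positivity) he1,
      ArithmeticFunction.cardFactors_mul (by omega) (by omega)] at h3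
    have h4 := ho _ hp1
    have h5 := ho _ hp2
    have h6 := ho e (by omega)
    omega

/-- There is an infinite arithmetic progression of odd positive integers `k` such that `2 ^ n + k` is not a
semiprime for any `n ≥ 0`; none of these odd numbers `k` is a value of `a`. -/
theorem result : ∃ k M : ℕ, Odd k ∧ 0 < M ∧ Even M ∧ ∀ t n : ℕ,
    ¬ IsSemiprime (2 ^ n + (k + M * t)) ∧ a n ≠ k + M * t := by
  refine ⟨k₀, M, by decide, by decide, by decide, fun t n => ⟨not_semiprime n t, fun h => ?_⟩⟩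
  have h1 := sInf_mem n
  have h2 : sInf {s : ℕ | 2 ^ n < s ∧ Odd s ∧ IsSemiprime s} = 2 ^ n + (k₀ + M * t) := by
    have h3 : 2 ^ n < sInf {s : ℕ | 2 ^ n < s ∧ Odd s ∧ IsSemiprime s} := h1.1
    unfold a at h
    omega
  rw [h2] at h1
  exact not_semiprime n t h1.2.2

end Pool.Agent.Results.MP_c49196_nt.MissedGaps
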